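import Pool.Agent.N625.PT.T
import Pool.Agent.N625.PT.H

/-!
# The asymptotic formula of Schinzel for `q` and `N - m q` prime, with almost prime companions, for random integers

Nothing is used besides Mathlib in the statement: `∑ v ∈ range (b ^ k), (if P v then 0 else p v)` is the probability that
the random integer `v < b ^ k` with the distribution `p` does not have the property `P`.
-/

set_option autoImplicit false

namespace Pool.Agent.Results.MP_0bf1d2_nt.ExchangeableDigitsAllSlopes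
open Finset Polynomial

/-- The probability, for the distribution `μ` on the words of `k` digits (the integers `v < b ^ k`), that the word begins with
the `i` digits of `u < b ^ i`. -/
noncomputable def begins (b k : ℕ) (μ : ℕ → ℝ) (i u : ℕ) : ℝ := ∑ w ∈ range (b ^ (k - i)), μ (u * b ^ (k - i) + w)

/-- `p` is a probability on the words of `k` digits in base `b`, read as integers `v < b ^ k`. There is another probability
`μ` with `p ≤ k ^ T μ` such that after every beginning `u` two different blocks `a`, `a'` of `L` digits can be exchanged: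
`p (u a w) = r p (u a' w)` for all endings `w`, with a factor `r` between `η` and `1 / η` which does not depend on `w`; and
given the beginning `u`, each of the two blocks comes next with a probability of at least `η` in the distribution `μ`.
(For `T = 0` one has `μ = p`. For the uniform distribution on a set of words `r` is `1`.) -/
structure Exchangeable (b L : ℕ) (η : ℝ) (T k : ℕ) (p : ℕ → ℝ) : Prop where
  nonneg : ∀ v, 0 ≤ p v
  sum : ∑ v ∈ range (b ^ k), p v = 1
  dominated : ∃ μ : ℕ → ℝ, (∀ v, 0 ≤ μ v) ∧ ∑ v ∈ range (b ^ k), μ v = 1 ∧ (∀ v < b ^ k, p v ≤ (k : ℝ) ^ T * μ v) ∧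
    ∀ i u : ℕ, i + L ≤ k → u < b ^ i → ∃ (a a' : ℕ) (r : ℝ), a < a' ∧ a' < b ^ L ∧ η ≤ r ∧ η * r ≤ 1 ∧
      (∀ w < b ^ (k - (i + L)), p ((b ^ L * u + a) * b ^ (k - (i + L)) + w) = r * p ((b ^ L * u + a') * b ^ (k - (i + L)) + w)) ∧
      η * begins b k μ i u ≤ begins b k μ (i + L) (b ^ L * u + a) ∧
      η * begins b k μ i u ≤ begins b k μ (i + L) (b ^ L * u + a')

variable {g : ℕ}

open Classical in
/-- The number of primes `q ≤ N` such that `N - m q` is prime and no prime `ℓ ≤ y` divides one of the `F_i(q)`; each `q` is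
counted with the weight `log q log (N - m q)`. -/
noncomputable def count (F : Fin g → ℤ[X]) (m N y : ℕ) : ℝ :=
  ∑ q ∈ (Icc 1 N).filter (fun q : ℕ => q.Prime ∧ ((N : ℤ) - m * q).toNat.Prime ∧
    ∀ ℓ : ℕ, ℓ.Prime → ℓ ≤ y → ∀ i, ¬ (ℓ : ℤ) ∣ (F i).eval (q : ℤ)), Real.log q * Real.log (((N : ℤ) - m * q : ℤ) : ℝ)

/-- `ω_N(p)`: the number of residues `r` modulo `p` with `r F_1(r) ... F_g(r) (N - m r) ≡ 0` -/
def omega (F : Fin g → ℤ[X]) (m N p : ℕ) : ℕ :=
  ((range p).filter (fun r : ℕ => (p : ℤ) ∣ (r * ∏ i, (F i).eval (r : ℤ)) * (N - m * r))).card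

/-- The expected value: the number `⌊(N - 1) / m⌋` of the positive integers `n` with `N - m n > 0`, times the product of
`(1 - ω_N(p) / p) (1 - 1 / p) ^ (-2)` over the primes `p ≤ y`. -/
noncomputable def expected (F : Fin g → ℤ[X]) (m N y : ℕ) : ℝ :=
  (((N - 1) / m : ℕ) : ℝ) * ∏ p ∈ (Icc 1 y).filter Nat.Prime, (1 - (omega F m N p : ℝ) / p) / (1 - 1 / (p : ℝ)) ^ 2

/-- `n F_1(n) ... F_g(n) (N - m n)` has no fixed prime divisor -/
def NoFixedDivisor (F : Fin g → ℤ[X]) (m N : ℕ) : Prop :=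
  ∀ p : ℕ, p.Prime → ∃ n : ℤ, ¬ (p : ℤ) ∣ (n * ∏ i, (F i).eval n) * (N - m * n)

lemma begins_sum (b k : ℕ) (μ : ℕ → ℝ) (i u : ℕ) (hi : i < k) :
    ∑ a ∈ range b, begins b k μ (i + 1) (b * u + a) = begins b k μ i u := by
  unfold begins
  obtain ⟨n, hn⟩ : ∃ n, k - i = n + 1 := ⟨k - i - 1, by omega⟩
  have h1 : k - (i + 1) = n := by omega
  rw [h1, hn, pow_succ, mul_comm (b ^ n) b, Pool.Agent.N625.PT.sum_blocks b (b ^ n)]
  apply sum_congr rfl
  intro a _
  apply sum_congr rfl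
  intro w _
  congr 1
  ring

lemma flex_of {b L T k : ℕ} {η : ℝ} {p : ℕ → ℝ} (hp : Exchangeable b L η T k p) : Pool.Agent.N625.PT.Flex b L η T k p := by
  obtain ⟨h0, h1, μ, m0, m1, m2, m3⟩ := hp
  have hT : (0 : ℝ) ≤ (k : ℝ) ^ T := by positivity
  have hb0 : ∀ i u, 0 ≤ begins b k μ i u := fun i u => sum_nonneg fun w _ => m0 _
  refine ⟨h0, h1, fun i u => (k : ℝ) ^ T * begins b k μ i u, fun i u => mul_nonneg hT (hb0 i u), ?_, ?_, ?_, ?_⟩
  · intro v hv
    refine (m2 v hv).trans (le_of_eq ?_)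
    unfold begins
    simp
  · intro i hi u _
    simp only
    rw [← mul_sum, begins_sum b k μ i u hi]
  · simp only
    have : begins b k μ 0 0 = 1 := by
      unfold begins
      simpa using m1
    rw [this, mul_one]
  · intro i u hi hu
    obtain ⟨a, a', r, q1, q2, q3, q4, q5, q6, q7⟩ := m3 i u hi hu
    refine ⟨a, a', r, q1, q2, q3, q4, q5, ?_, ?_⟩
    · simp only
      calc η * ((k : ℝ) ^ T * begins b k μ i u) = (k : ℝ) ^ T * (η * begins b k μ i u) := by ring
        _ ≤ _ := mul_le_mul_of_nonneg_left q6 hT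
    · simp only
      calc η * ((k : ℝ) ^ T * begins b k μ i u) = (k : ℝ) ^ T * (η * begins b k μ i u) := by ring
        _ ≤ _ := mul_le_mul_of_nonneg_left q7 hT

open Pool.Agent.H373R2.T7 Pool.Agent.H373R2.T7.TB Pool.Agent.H373R2.T7.PB

lemma prod_eF (F : Fin g → ℤ[X]) (n : ℤ) : (∏ i, (PArg.eF F i).eval n) = n * ∏ i, (F i).eval n := by
  rw [Fin.prod_univ_succ]
  have h1 : (PArg.eF F 0) = X := by unfold PArg.eF; simp
  have h2 : ∀ i : Fin g, (PArg.eF F (Fin.succ i)) = F i := by intro i; unfold PArg.eF; simp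
  simp only [h1, h2, eval_X]

open Classical in
lemma count_eq (F : Fin g → ℤ[X]) (m N y : ℕ) : count F m N y = WP F (C (m : ℤ) * X) N y N := by
  unfold count WP Rough
  apply sum_congr
  · ext q
    rw [mem_filter, mem_filter, Pool.Agent.N625.PT.GG_ev]
  · intro q _
    rw [Pool.Agent.N625.PT.GG_ev]

lemma omega_eq (F : Fin g → ℤ[X]) (m N p : ℕ) : omega F m N p = omegaN (PArg.eF F) (C (m : ℤ) * X) N p := by
  unfold omega omegaN
  simp only [Pool.Agent.N625.PT.GG_ev, prod_eF]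

lemma expected_eq (F : Fin g → ℤ[X]) (m N y : ℕ) : expected F m N y = Pool.Agent.N625.PT.TPF F m N y := by
  unfold expected Pool.Agent.N625.PT.TPF
  have e : (Vz y)⁻¹ = ∏ p ∈ (Icc 1 y).filter Nat.Prime, (1 - 1 / (p : ℝ))⁻¹ := by
    rw [prod_inv_distrib]
    rfl
  rw [e, mul_assoc, ← prod_mul_distrib]
  congr 1
  apply prod_congr rfl
  intro p _
  rw [omega_eq, pow_two, div_eq_mul_inv, div_eq_mul_inv, mul_inv]
  ring

lemma noFixed_of (F : Fin g → ℤ[X]) (m N : ℕ) (h : NoFixedDivisor F m N) : NoFixed (PArg.eF F) (C (m : ℤ) * X) N := by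
  intro p hp
  obtain ⟨n, hn⟩ := h p hp
  refine ⟨n, ?_⟩
  rw [prod_eF, Pool.Agent.N625.PT.GG_ev]
  exact hn

open Classical in
/-- Let `D` and `ε > 0` be given. There is `K` with the following property. Let `F_1, ..., F_g` be any polynomials with
integer coefficients, not constant, with positive leading coefficients and degrees of sum at most `D`. Let `v < b ^ k` be
a random integer whose distribution `p` has exchangeable blocks of digits, and let `y` be given with `y ^ K ≤ b ^ k` and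
`b ^ k ≤ y ^ A`. With a probability of at least `1 - 1 / k ^ U` the following holds for ALL the positive integers `N` with
`|N - h q| ≤ k ^ W` for some `q` with `|q - (c + κ v)| ≤ k ^ W` and some `1 ≤ h ≤ k ^ J`, and for ALL `1 ≤ m ≤ k ^ J`:
if `n F_1(n) ... F_g(n) (N - m n)` has no fixed prime divisor, the weighted number of the primes `q` such that `N - m q`
is prime and the `F_i(q)` have no prime factor `≤ y` differs from its expected value by at most the fraction `ε`. -/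
theorem result (D : ℕ) (ε : ℝ) (hε : 0 < ε) : ∃ K : ℕ, 1 ≤ K ∧ ∀ (g : ℕ) (F : Fin g → ℤ[X]), (∀ i, 1 ≤ (F i).natDegree) →
    (∀ i, 0 < (F i).leadingCoeff) → ∑ i, (F i).natDegree ≤ D → ∀ (b L : ℕ), 2 ≤ b → 1 ≤ L → ∀ η : ℝ, 0 < η → η ≤ 1 →
    ∀ (T₀ : ℕ) (κ : ℤ), κ ≠ 0 → ∀ A B J W U : ℕ, ∃ k₀ : ℕ, ∀ k : ℕ, k₀ ≤ k → ∀ p : ℕ → ℝ, Exchangeable b L η T₀ k p →
    ∀ c : ℤ, |c| ≤ B * (b : ℤ) ^ k → ∀ y : ℕ, y ^ K ≤ b ^ k → b ^ k ≤ y ^ A →
      ∑ v ∈ range (b ^ k), (if ∀ q : ℤ, |q - (c + κ * v)| ≤ (k : ℤ) ^ W → ∀ h : ℕ, 1 ≤ h → h ≤ k ^ J →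
        ∀ N : ℕ, 0 < N → |(N : ℤ) - h * q| ≤ (k : ℤ) ^ W → ∀ m : ℕ, 1 ≤ m → m ≤ k ^ J → NoFixedDivisor F m N →
          |count F m N y - expected F m N y| ≤ ε * expected F m N y then 0 else p v) ≤ 1 / (k : ℝ) ^ U := by
  obtain ⟨K, hK, hmain⟩ := Pool.Agent.N625.PT.det_PF (D + 1) ε hε
  refine ⟨2 * K, by omega, fun g F hF hFl hD b L hb hL η hη0 hη1 T₀ κ hκ A B J W U => ?_⟩
  have hdet := hmain g F hF hFl (by omega) (J + 1) (2 * A)
  have hC := Pool.Agent.N625.PT.flex_tcls b L hb hL η hη0 hη1 T₀ κ hκ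
  obtain ⟨k₀, hmain2⟩ := Pool.Agent.N625.PT.t_gen hC B J W (U + J + 0 + 1) _ _ hdet
  obtain ⟨z0, hz0⟩ : ∃ z0 : ℕ, z0 = 2 ^ (J + 1) := ⟨_, rfl⟩
  refine ⟨k₀ + z0 + 2 * K + 4, fun k hk p hp c hc y hyK hyA => ?_⟩
  have hk2 : 2 ^ (J + 1) ≤ k := by rw [← hz0]; omega
  have hk4 : 4 ≤ k := by omega
  have hflex := flex_of hp
  refine Pool.Agent.N625.PT.union J 0 U k (by omega) (b ^ k) p hp.nonneg
    (fun m _ v => ¬ ∀ q : ℤ, |q - (c + κ * v)| ≤ (k : ℤ) ^ W → ∀ h : ℕ, 1 ≤ h → h ≤ k ^ J →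
        ∀ N : ℕ, 0 < N → |(N : ℤ) - h * q| ≤ (k : ℤ) ^ W → NoFixedDivisor F m N →
          |count F m N y - expected F m N y| ≤ ε * expected F m N y) _ ?_ ?_
  · intro v hv
    by_contra hcon
    apply hv
    intro q hq h hh1 hh2 N hN0 hN m hm1 hm2 hNF
    by_contra hbad
    apply hcon
    refine ⟨m, hm1, hm2, 0, by simp, ?_⟩
    intro hall
    exact hbad (hall q hq h hh1 hh2 N hN0 hN hNF)
  · intro m hm1 hm2 _ _
    have hAd : ∀ K' : ℕ, k ≤ K' → K' ≤ 2 * k → Pool.Agent.N625.PT.AdP (J + 1) K (2 * A) (b ^ K') (m, y) := by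
      intro K' hK1 hK2
      refine ⟨hm1, ?_, ?_, ?_⟩
      · simp only
        have hbr : (2 : ℝ) ≤ b := by exact_mod_cast hb
        have hl : (k : ℝ) / 2 ≤ Real.log ((b ^ K' : ℕ) : ℝ) := by
          push_cast
          rw [Real.log_pow]
          have g1 : (1 : ℝ) / 2 ≤ Real.log b := by
            have := Real.log_two_gt_d9
            have := Real.log_le_log (by norm_num) hbr
            linarith
          have g2 : (k : ℝ) ≤ K' := by exact_mod_cast hK1
          have g3 : (0 : ℝ) ≤ k := Nat.cast_nonneg _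
          nlinarith
        have hk0 : (0 : ℝ) < k := by exact_mod_cast (by omega : 0 < k)
        calc (m : ℝ) ≤ (k : ℝ) ^ J := by exact_mod_cast hm2
          _ ≤ ((k : ℝ) / 2) ^ (J + 1) := by
              rw [div_pow, le_div_iff₀ (by positivity), pow_succ (k : ℝ)]
              apply mul_le_mul_of_nonneg_left _ (by positivity)
              exact_mod_cast hk2
          _ ≤ Real.log ((b ^ K' : ℕ) : ℝ) ^ (J + 1) := pow_le_pow_left₀ (by positivity) hl _
      · simp only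
        exact hyK.trans (Nat.pow_le_pow_right (by omega) hK1)
      · simp only
        calc b ^ K' ≤ b ^ (2 * k) := Nat.pow_le_pow_right (by omega) hK2
          _ = (b ^ k) ^ 2 := by rw [← pow_mul]; congr 1; ring
          _ ≤ (y ^ A) ^ 2 := Nat.pow_le_pow_left hyA 2
          _ = y ^ (2 * A) := by rw [← pow_mul]; congr 1; ring
    refine le_trans (le_of_eq ?_) (hmain2 k (by omega) p hflex c hc (m, y) hAd
      (fun v => ∀ q : ℤ, |q - (c + κ * v)| ≤ (k : ℤ) ^ W → ∀ h : ℕ, 1 ≤ h → h ≤ k ^ J →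
        ∀ N : ℕ, 0 < N → |(N : ℤ) - h * q| ≤ (k : ℤ) ^ W → NoFixedDivisor F m N →
          |count F m N y - expected F m N y| ≤ ε * expected F m N y) ?_)
    · apply sum_congr rfl
      intro v _
      by_cases hv : ∀ q : ℤ, |q - (c + κ * v)| ≤ (k : ℤ) ^ W → ∀ h : ℕ, 1 ≤ h → h ≤ k ^ J →
        ∀ N : ℕ, 0 < N → |(N : ℤ) - h * q| ≤ (k : ℤ) ^ W → NoFixedDivisor F m N →
          |count F m N y - expected F m N y| ≤ ε * expected F m N y
      · rw [if_neg (not_not.2 hv), if_pos hv]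
      · rw [if_pos hv, if_neg hv]
    intro v hv
    push Not at hv
    obtain ⟨q, hq, h, hh1, hh2, N, hN0, hN, hNF, hbad⟩ := hv
    refine ⟨h, hh1, hh2, q - (c + κ * v), hq, (N : ℤ) - h * q, hN, ?_, ?_⟩
    · have e1 : (h : ℤ) * (c + (q - (c + κ * v)) + κ * v) + ((N : ℤ) - h * q) = N := by ring
      rw [e1]
      exact_mod_cast hN0
    · have e1 : (h : ℤ) * (c + (q - (c + κ * v)) + κ * v) + ((N : ℤ) - h * q) = N := by ring
      rw [e1, Int.toNat_natCast]
      intro hP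
      have h5 := hP (noFixed_of F m N hNF)
      simp only at h5
      rw [← count_eq, ← expected_eq] at h5
      linarith

end Pool.Agent.Results.MP_0bf1d2_nt.ExchangeableDigitsAllSlopes
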