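import Pool.Agent.N837.LP.GenQ

set_option autoImplicit false

/-!
# A positive proportion of the `N` of a residue class miss the first `A log N` admissible arguments

`F_1, ..., F_g` are arbitrary integer polynomials and `G` is an integer polynomial of degree at least
one with positive leading coefficient.  For every `A ≥ 1` and `0 < η ≤ 1`, for every large `X`, for a
positive proportion of the `N ≡ r (mod Q)` in `(X, X + X ^ η]`, none of the first `A log X` positive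
integers `n` with `F_1(n), ..., F_g(n)` all prime has `N - G(n)` prime.
-/

namespace Pool.Agent.Results.MP_0bf1d2_nt.LateArguments

open Polynomial Filter

/-- an integer polynomial with positive leading coefficient and positive degree is bounded below on
the natural numbers -/
theorem bdd_below (G : ℤ[X]) (hl : 0 < G.leadingCoeff) (hd : 1 ≤ G.natDegree) :
    ∃ c : ℝ, 0 ≤ c ∧ ∀ n : ℕ, -c ≤ ((G.eval (n : ℤ) : ℤ) : ℝ) := by
  have hinj : Function.Injective (Int.castRingHom ℝ) := RingHom.injective_int _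
  set P : ℝ[X] := G.map (Int.castRingHom ℝ) with hP
  have hPl : P.leadingCoeff = (G.leadingCoeff : ℝ) := by
    rw [hP, Polynomial.leadingCoeff_map_of_injective hinj]
    rfl
  have hPd : P.natDegree = G.natDegree := Polynomial.natDegree_map_eq_of_injective hinj G
  have hdeg : 0 < P.degree := by
    apply Polynomial.natDegree_pos_iff_degree_pos.1
    omega
  have ht := Polynomial.tendsto_atTop_of_leadingCoeff_nonneg P hdeg (by
    rw [hPl]
    exact_mod_cast hl.le)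
  have ht2 := ht.comp (tendsto_natCast_atTop_atTop (R := ℝ))
  obtain ⟨n₀, hn₀⟩ := Filter.eventually_atTop.1 (ht2.eventually_ge_atTop 0)
  have hev : ∀ n : ℕ, P.eval (n : ℝ) = ((G.eval (n : ℤ) : ℤ) : ℝ) := by
    intro n
    rw [hP]
    have := Polynomial.eval_intCast_map (Int.castRingHom ℝ) G (n : ℤ)
    simpa using this
  refine ⟨∑ m ∈ Finset.range n₀, |((G.eval (m : ℤ) : ℤ) : ℝ)|,
    Finset.sum_nonneg (fun _ _ => abs_nonneg _), fun n => ?_⟩
  by_cases h : n₀ ≤ n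
  · have h1 := hn₀ n h
    simp only [Function.comp] at h1
    rw [hev] at h1
    have h2 : (0:ℝ) ≤ ∑ m ∈ Finset.range n₀, |((G.eval (m : ℤ) : ℤ) : ℝ)| :=
      Finset.sum_nonneg (fun _ _ => abs_nonneg _)
    linarith
  · have h1 : |((G.eval (n : ℤ) : ℤ) : ℝ)| ≤
        ∑ m ∈ Finset.range n₀, |((G.eval (m : ℤ) : ℤ) : ℝ)| :=
      Finset.single_le_sum (f := fun m : ℕ => |((G.eval (m : ℤ) : ℤ) : ℝ)|)
        (fun _ _ => abs_nonneg _) (Finset.mem_range.2 (by omega))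
    have h2 := neg_abs_le ((G.eval (n : ℤ) : ℤ) : ℝ)
    linarith

open Classical in
theorem result (δ : ℝ) (hδ : 0 < δ) :
    ∃ C : ℝ, 0 < C ∧ ∀ A η κ : ℝ, 1 ≤ A → 0 < η → η ≤ 1 → 1 ≤ κ →
    ∀ (g : ℕ) (F : Fin g → ℤ[X]) (G : ℤ[X]), 0 < G.leadingCoeff → 1 ≤ G.natDegree →
    ∃ X₀ : ℝ, ∀ X : ℝ, X₀ ≤ X →
    ∀ Q : ℕ, 0 < Q → (Q : ℝ) ≤ X ^ (η / 2) → (Q : ℝ) ≤ κ * Q.totient → ∀ r : ℤ,
    X ^ η / Q * Real.exp (-Real.exp (C * A * κ / η)) ≤
      (({N : ℕ | X < N ∧ (N : ℝ) ≤ X + X ^ η ∧ (Q : ℤ) ∣ N - r ∧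
        ∀ n : ℕ, 0 < n → (∀ i, ∃ p : ℕ, p.Prime ∧ (F i).eval (n : ℤ) = p) →
          (((Finset.range n).filter (fun m : ℕ => 0 < m ∧
            ∀ i, ∃ p : ℕ, p.Prime ∧ (F i).eval (m : ℤ) = p)).card : ℝ) ≤ A * Real.log X →
          0 < (N : ℤ) - G.eval (n : ℤ) →
          ∃ q : ℕ, q.Prime ∧ (q : ℝ) ≤ X ^ (η * δ) ∧ (q : ℤ) ∣ N - G.eval (n : ℤ) ∧
            (q : ℤ) < (N : ℤ) - G.eval (n : ℤ)}).ncard : ℝ) := by
  obtain ⟨C, hC, h⟩ := Pool.Agent.N837.LP.genQF δ hδ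
  refine ⟨C, hC, fun A η κ hA hη hη1 hκ g F G hl hd => ?_⟩
  obtain ⟨X₀, hX₀⟩ := h A η 2 κ hA hη hη1 (by norm_num) hκ
  obtain ⟨c, hc0, hc⟩ := bdd_below G hl hd
  refine ⟨max X₀ (max 4 c), fun X hX Q hQ hQX hQφ r => ?_⟩
  have hX4 : 4 ≤ X := (le_max_left _ _).trans ((le_max_right _ _).trans hX)
  have hXc : c ≤ X := (le_max_right _ _).trans ((le_max_right _ _).trans hX)
  have hX0 : 0 < X := by linarith
  have hXη : X ^ η ≤ X := by
    calc X ^ η ≤ X ^ (1:ℝ) := Real.rpow_le_rpow_of_exponent_le (by linarith) hη1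
      _ = X := Real.rpow_one X
  have h1 := hX₀ X ((le_max_left _ _).trans hX) Q hQ hQX hQφ
    (fun m : ℕ => 0 < m ∧ ∀ i, ∃ p : ℕ, p.Prime ∧ (F i).eval (m : ℤ) = p)
    (fun n => G.eval (n : ℤ)) r
  refine h1.trans (Nat.cast_le.2 (Set.ncard_le_ncard ?_ ?_))
  · intro n hn
    obtain ⟨q1, q2, q3, q4⟩ := hn
    refine ⟨q1, q2, q3, fun t ht0 ht hcard hpos => ?_⟩
    have h2X : (n : ℝ) ≤ 2 * X := by linarith
    have hb : |((G.eval (t : ℤ) : ℤ) : ℝ)| ≤ X ^ (2:ℝ) := by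
      have e2 : X ^ (2:ℝ) = X * X := by
        rw [show (2:ℝ) = ((2:ℕ):ℝ) by norm_num, Real.rpow_natCast]
        ring
      rw [e2, abs_le]
      have e3 := hc t
      have e4 : ((G.eval (t : ℤ) : ℤ) : ℝ) < n := by
        have : G.eval (t : ℤ) < (n : ℤ) := by linarith
        exact_mod_cast this
      constructor <;> nlinarith
    obtain ⟨q, p1, p2, p3, p4⟩ := q4 t ⟨ht0, ht⟩ (by convert hcard) hb
    refine ⟨q, p1, p2, p3, ?_⟩
    rwa [abs_of_pos hpos] at p4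
  · apply (Set.finite_Iic ⌊X + X ^ η⌋₊).subset
    intro a ha
    obtain ⟨_, h2, _⟩ := ha
    rw [Set.mem_Iic]
    exact Nat.le_floor h2

end Pool.Agent.Results.MP_0bf1d2_nt.LateArguments
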