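import Mathlib
import Pool.Agent.N732.LinP

/-! Integers `N = a p + b + q` with `p`, `q` primes, `p` in a set of primes of positive relative lower
density (for `a = 1`, `b = 0`: the binary Goldbach problem with one restricted summand): the exact
minimal density and its behaviour at both ends. -/

set_option autoImplicit false

namespace Pool.Agent.Results.MP_0bf1d2_nt.LinearPrimeArguments
open Finset Filter Topology

open Classical in
/-- The number of elements of `S` in `[1, x]`. -/
noncomputable def count (S : Set ℕ) (x : ℕ) : ℕ := ((Icc 1 x).filter (fun n => n ∈ S)).card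

/-- The lower asymptotic density. -/
noncomputable def lowerDensity (S : Set ℕ) : ℝ := liminf (fun x : ℕ => (count S x : ℝ) / x) atTop

/-- The lower density, relative to the set of all primes, of the set of the primes in `A`. -/
noncomputable def relLower (A : Set ℕ) : ℝ :=
  liminf (fun x : ℕ => (count {p | p.Prime ∧ p ∈ A} x : ℝ) / (count {p | p.Prime} x : ℝ)) atTop

/-- The natural numbers `N` such that `N = a p + b + q` for a prime `p ∈ A` and a prime `q`. -/
def sums (a : ℕ) (b : ℤ) (A : Set ℕ) : Set ℕ :=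
  {N | ∃ p q : ℕ, (p.Prime ∧ p ∈ A) ∧ q.Prime ∧ (a : ℤ) * p + b + q = N}

/-- `F(β)`: the infimum of the lower densities of `sums a b A` for the sets `A` of primes of relative
lower density at least `β`. -/
noncomputable def F (a : ℕ) (b : ℤ) (β : ℝ) : ℝ :=
  sInf {d | ∃ A : Set ℕ, β ≤ relLower A ∧ d = lowerDensity (sums a b A)}

/-- The product of the primes up to `w`. -/
def P (w : ℕ) : ℕ := ∏ p ∈ (Icc 1 w).filter Nat.Prime, p

instance (w : ℕ) : NeZero (P w) := ⟨(Pool.Agent.TH881.Wp_pos w).ne'⟩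

open Classical in
/-- The residue classes modulo `P w` which are units. -/
noncomputable def units (w : ℕ) : Finset (ZMod (P w)) := univ.filter (fun a => IsUnit a)

open Classical in
/-- The sums of `a x + b`, `x ∈ B`, and a unit modulo `P w`. -/
noncomputable def plusUnits (a : ℕ) (b : ℤ) (w : ℕ) (B : Finset (ZMod (P w))) : Finset (ZMod (P w)) :=
  univ.filter (fun t => ∃ x ∈ B, IsUnit (t - (a * x + b)))

/-- The local minimum: the infimum of `|{a x + b + u : x ∈ B, u unit}| / P w` over all `w` and all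
sets `B` of at least `β φ(P w)` units modulo `P w`. -/
noncomputable def localF (a : ℕ) (b : ℤ) (β : ℝ) : ℝ := sInf {d | ∃ w : ℕ, ∃ B ⊆ units w,
  β * Nat.totient (P w) ≤ B.card ∧ d = ((plusUnits a b w B).card : ℝ) / P w}

/-- The twin prime constant `∏ (1 - 1 / (p - 1) ^ 2)`, `p ≥ 3` prime. -/
noncomputable def C₂ : ℝ := ⨅ z : ℕ, ∏ p ∈ (Icc 3 z).filter Nat.Prime, (1 - 1 / ((p : ℝ) - 1) ^ 2)

open Pool.Agent.TH881.RQ Pool.Agent.N732.LinP in
lemma hit_eq (a : ℕ) (b : ℤ) (A : Set ℕ) : hit true (lin a b) (-1) A = sums a b A := by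
  ext N
  constructor
  · rintro ⟨n, hn, hA, hp⟩
    refine ⟨n, _, ⟨hn rfl, hA⟩, hp, ?_⟩
    have h1 := hp.pos
    rw [lin_eval] at h1 ⊢
    generalize (a : ℤ) * n + b = y at h1 ⊢
    omega
  · rintro ⟨n, q, ⟨hn, hA⟩, hq, h⟩
    refine ⟨n, fun _ => hn, hA, ?_⟩
    rw [lin_eval]
    have h2 : (N : ℤ) + -1 * ((a : ℤ) * n + b) = q := by
      rw [← h]
      ring
    rw [h2, Int.toNat_natCast]
    exact hq

open Pool.Agent.TH881.RQ Pool.Agent.N732.LinP in
lemma F_eq (a : ℕ) (b : ℤ) (β : ℝ) : F a b β = FFq true (lin a b) (-1) β := by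
  unfold F FFq
  congr 1
  ext d
  constructor
  · rintro ⟨A, h1, h2⟩
    refine ⟨A, ?_, ?_⟩
    · rw [relq_true]
      exact h1
    · rw [hit_eq]
      exact h2
  · rintro ⟨A, h1, h2⟩
    refine ⟨A, ?_, ?_⟩
    · rw [relq_true] at h1
      exact h1
    · rw [hit_eq] at h2
      exact h2

open Pool.Agent.TH881 Pool.Agent.TH881.RQ Pool.Agent.N732.LinP in
lemma plusUnits_eq (a : ℕ) (b : ℤ) (w : ℕ) (B : Finset (ZMod (Wp w))) :
    ((plusUnits a b w B).card : ℝ) / P w = ((sumq (lin a b) (-1) w B).card : ℝ) / Wp w := by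
  rw [sumq_lin]
  rfl

open Pool.Agent.TH881 Pool.Agent.TH881.RG Pool.Agent.TH881.RQ Pool.Agent.N732.LinP in
lemma localF_eq (a : ℕ) (b : ℤ) (β : ℝ) : localF a b β = Flocq true (lin a b) (-1) β := by
  unfold localF Flocq
  congr 1
  ext d
  have hA : ∀ w : ℕ, ((AA true w).card : ℝ) = Nat.totient (Wp w) := by
    intro w
    rw [AA_true, card_UU]
  have hU : ∀ w : ℕ, AA true w = units w := by
    intro w
    rw [AA_true]
    rfl
  constructor
  · rintro ⟨w, B, h0, h1, h2⟩
    refine ⟨w, B, ?_, ?_, ?_⟩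
    · rw [hU]
      exact h0
    · rw [hA]
      exact h1
    · exact h2.trans (plusUnits_eq a b w B)
  · rintro ⟨w, B, h0, h1, h2⟩
    refine ⟨w, B, ?_, ?_, ?_⟩
    · rw [← hU]
      exact h0
    · rw [hA] at h1
      exact h1
    · exact h2.trans (plusUnits_eq a b w B).symm

/-- For `a ≥ 1` and every integer `b`, `F(β)` is equal to the local minimum for `0 < β < 1`, and
`log log (1 / β) F(β)` tends to `e ^ (-γ)` as `β` tends to `0` from above. For `a = 1` and every `b`,
`(1 - β) log log (1 / (1 / 2 - F(β)))` tends to `2 C₂ e ^ (-γ)` as `β` tends to `1` from below. -/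
theorem result :
    (∀ (a : ℕ) (b : ℤ), 1 ≤ a →
      (∀ β : ℝ, 0 < β → β < 1 → F a b β = localF a b β) ∧
      Tendsto (fun β : ℝ => Real.log (Real.log (1 / β)) * F a b β) (𝓝[>] 0)
        (𝓝 (Real.exp (-Real.eulerMascheroniConstant)))) ∧
    ∀ b : ℤ, Tendsto (fun β : ℝ => (1 - β) * Real.log (Real.log (1 / (1 / 2 - F 1 b β)))) (𝓝[<] 1)
      (𝓝 (2 * C₂ * Real.exp (-Real.eulerMascheroniConstant))) := by
  refine ⟨fun a b ha => ⟨?_, ?_⟩, ?_⟩
  · intro β h0 h1
    rw [F_eq, localF_eq]
    exact Pool.Agent.N732.LinP.formula_lin a b ha β h0 h1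
  · simp only [F_eq]
    exact Pool.Agent.N732.LinP.law_zero_lin a b ha
  · intro b
    simp only [F_eq]
    exact Pool.Agent.N732.LinP.law_one_lin b

end Pool.Agent.Results.MP_0bf1d2_nt.LinearPrimeArguments
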