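import Pool.Agent.N469.LP.Schin

/-!
# Schinzel's quantitative hypothesis for linear polynomials `F₁ = a x + b`, `G = a m x + b'`, uniformly in the
# coefficients, for all `N` near almost all smooth numbers

Definition used: `Pool.Agent.H560R3.GB.C₂`, the twin prime constant `∏_{p > 2} (1 - 1 / (p - 1) ^ 2)`
(the infimum of the partial products).

The proof combines an elementary bound for the exponential sum over the integers composed of primes from a given set
(`Pool.Agent.N469.SQ.exp_alt`: it is large only near few rational numbers with small denominators), the replacement of the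
von Mangoldt function at the values of a linear form by its sieve model in the second moment (`Pool.Agent.N469.LP.sm_repZ`,
based on the starting files `Pool.Agent.Y885`), and a fundamental lemma for the primes of a progression whose images
under a linear form have no small prime factors (`Pool.Agent.N469.LP.HH_main`).
-/

set_option autoImplicit false

namespace Pool.Agent.Results.MP_0bf1d2_nt.SmoothNumbers

open Finset Pool.Agent.H560R3.GB

/-- `Q₁(t)` for `F₁ = a x + b` and `G = a m x + b'`: the number of the positive integers `n` with `t - G(n) > 0` for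
which `F₁(n)` and `t - G(n)` are primes. -/
noncomputable def Q₁ (t b b' : ℤ) (a m : ℕ) : ℕ :=
  {n : ℕ | 1 ≤ n ∧ 0 < t - (a * m * n + b') ∧ (a * (n : ℤ) + b).toNat.Prime ∧ (t - (a * m * n + b')).toNat.Prime}.ncard

/-- `X(t)`: the number of the positive integers `n` with `t - G(n) > 0`. -/
noncomputable def X (t b' : ℤ) (a m : ℕ) : ℕ := {n : ℕ | 1 ≤ n ∧ 0 < t - (a * m * n + b')}.ncard

/-- The number of the classes `x mod a` for which `x` and `(t + m b - b') - m x` are coprime to `a`. -/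
def classes (t b b' : ℤ) (a m : ℕ) : ℕ :=
  ((range a).filter fun x : ℕ => Nat.Coprime x a ∧ Int.gcd (-(m : ℤ) * (x : ℤ) + (t + m * b - b')) a = 1).card

/-- The singular series `𝔖(t)` in closed form. (If `F₁ (t - G)` has no fixed prime divisor, then in the product over `p` of
`(1 - ω(p) / p) (1 - 1 / p) ^ (-2)` one has `ω(p) = 0` if `p ∣ a`, otherwise `ω(p) = 1` if `p` divides
`m (t + m b - b')`, otherwise `ω(p) = 2`.) -/
noncomputable def series (t b b' : ℤ) (a m : ℕ) : ℝ :=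
  2 * C₂ * (∏ p ∈ (-(m : ℤ) * (t + m * b - b')).natAbs.primeFactors.filter (fun p => 2 < p), ((p : ℝ) - 1) / ((p : ℝ) - 2)) * a /
    classes t b b' a m

/-- The number `t` is admissible: `F₁ (t - G)` has no fixed prime divisor. (For linear polynomials this implies that
`t - G` is irreducible in `ℤ[x]`.) -/
def Admissible (t b b' : ℤ) (a m : ℕ) : Prop :=
  ∀ p : ℕ, p.Prime → ∃ n : ℤ, ¬ (p : ℤ) ∣ (a * n + b) * (t - (a * m * n + b'))

/-- The formula of the hypothesis for `t`, with a relative error of at most `ε`, for all polynomials `F₁ = a x + b`,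
`G = a m x + b'` with `a ≤ (log N) ^ D`, `m ≤ M`, `|b|, |b'| ≤ (log N) ^ A` for which `t` is admissible. -/
def Holds (ε : ℝ) (A D M N : ℕ) (t : ℤ) : Prop :=
  ∀ (a m : ℕ) (b b' : ℤ), 1 ≤ a → (a : ℝ) ≤ Real.log N ^ D → 1 ≤ m → m ≤ M → |(b : ℝ)| ≤ Real.log N ^ A →
    |(b' : ℝ)| ≤ Real.log N ^ A → Admissible t b b' a m →
    |(Q₁ t b b' a m : ℝ) - X t b' a m / Real.log (X t b' a m) ^ 2 * series t b b' a m| ≤
      ε * (X t b' a m / Real.log (X t b' a m) ^ 2 * series t b b' a m) ∧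
    0 < X t b' a m / Real.log (X t b' a m) ^ 2 * series t b b' a m

/-- The integers `1 ≤ v ≤ N` all of whose prime factors belong to `P`. -/
def composedOf (P : Finset ℕ) (N : ℕ) : Finset ℕ := (Icc 1 N).filter fun v => v.primeFactors ⊆ P

/-- The `y`-smooth integers `1 ≤ v ≤ N`: the integers all of whose prime factors are at most `y`. -/
def smooth (y N : ℕ) : Finset ℕ := (Icc 1 N).filter fun v => ∀ p ∈ v.primeFactors, p ≤ y

theorem local_cond (t b b' : ℤ) (a m : ℕ) (h : Admissible t b b' a m) :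
    Int.gcd b a = 1 ∧ Int.gcd (t - b') (a * m : ℕ) = 1 ∧ ((2 : ℤ) ∣ a * m ∨ (2 : ℤ) ∣ t + b - b') := by
  refine ⟨?_, ?_, ?_⟩
  · by_contra hne
    obtain ⟨p, hp, hpd⟩ := Nat.exists_prime_and_dvd hne
    have h1 : (p : ℤ) ∣ b := (Int.natCast_dvd_natCast.2 hpd).trans (Int.gcd_dvd_left _ _)
    have h2 : (p : ℤ) ∣ a := (Int.natCast_dvd_natCast.2 hpd).trans (Int.gcd_dvd_right _ _)
    obtain ⟨n, hn⟩ := h p hp
    exact hn (Dvd.dvd.mul_right (dvd_add (Dvd.dvd.mul_right h2 _) h1) _)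
  · by_contra hne
    obtain ⟨p, hp, hpd⟩ := Nat.exists_prime_and_dvd hne
    have h1 : (p : ℤ) ∣ t - b' := (Int.natCast_dvd_natCast.2 hpd).trans (Int.gcd_dvd_left _ _)
    have h2 : (p : ℤ) ∣ ((a * m : ℕ) : ℤ) := (Int.natCast_dvd_natCast.2 hpd).trans (Int.gcd_dvd_right _ _)
    push_cast at h2
    obtain ⟨n, hn⟩ := h p hp
    apply hn
    apply Dvd.dvd.mul_left
    have e : t - ((a : ℤ) * m * n + b') = (t - b') - a * m * n := by ring
    rw [e]
    exact dvd_sub h1 (Dvd.dvd.mul_right h2 _)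
  · by_contra hne
    push Not at hne
    obtain ⟨h1, h2⟩ := hne
    obtain ⟨n, hn⟩ := h 2 Nat.prime_two
    apply hn
    push_cast
    obtain ⟨k, hk⟩ : ∃ k : ℤ, (a : ℤ) * m = 2 * k + 1 := ⟨(a : ℤ) * m / 2, by omega⟩
    have ha : ∃ j : ℤ, (a : ℤ) = 2 * j + 1 := by
      refine ⟨(a : ℤ) / 2, ?_⟩
      have : ¬ (2 : ℤ) ∣ a := fun h3 => h1 (Dvd.dvd.mul_right h3 _)
      omega
    obtain ⟨j, hj⟩ := ha
    by_cases h3 : (2 : ℤ) ∣ n + b
    · apply Dvd.dvd.mul_right
      have e : (a : ℤ) * n + b = (n + b) + 2 * (j * n) := by rw [hj]; ring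
      rw [e]
      exact dvd_add h3 (dvd_mul_right _ _)
    · apply Dvd.dvd.mul_left
      have e : t - ((a : ℤ) * m * n + b') = (t - b' - n) - 2 * (k * n) := by rw [hk]; ring
      rw [e]
      apply dvd_sub _ (dvd_mul_right _ _)
      omega

open Classical in
/-- Let `A`, `B`, `D`, `M`, `W`, `U`, `K`, the integer `κ ≠ 0`, `0 < ε ≤ 1` and `δ > 0` be fixed, let `N` be large,
`1 ≤ y ≤ log ^ K N`, and let `c` be an arbitrary integer with `|c| ≤ B N`.

(1) Let `P` be an arbitrary set of primes which are at most `y`, with at least `y ^ (1 / 2 + δ) log N` elements. Then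
for all the integers `v ≤ N` composed of primes from `P`, up to a proportion of at most `1 / log ^ U N` of them,
the formula of Schinzel's hypothesis holds (with a relative error of at most `ε`) for all `t = c + κ v + r` with
`|r| ≤ (log N) ^ A` and `N / (log N) ^ W ≤ t ≤ B N` and all the polynomials `F₁ = a x + b`, `G = a m x + b'` as in `Holds`.
(There can be as few as about `N ^ (1 / 2 + δ)` such integers `v`.)

(2) In particular this holds for all the `y`-smooth integers `v ≤ N`, up to a proportion of at most `1 / log ^ U N` of them,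
if `y ≥ log ^ (2 + δ) N`. (For example for all `t` near `v` itself.) -/
theorem result (A B D M W U K : ℕ) (κ : ℤ) (hκ : κ ≠ 0) (ε : ℝ) (hε : 0 < ε) (hε1 : ε ≤ 1) (δ : ℝ) (hδ : 0 < δ) :
    ∃ N₀ : ℕ, ∀ N, N₀ ≤ N → ∀ y : ℕ, 1 ≤ y → (y : ℝ) ≤ Real.log N ^ K → ∀ c : ℤ, |c| ≤ B * N →
      (∀ P : Finset ℕ, (∀ p ∈ P, p.Prime ∧ p ≤ y) → (y : ℝ) ^ (1 / 2 + δ) * Real.log N ≤ P.card →
        (((composedOf P N).filter fun v : ℕ => ∃ r : ℤ, |(r : ℝ)| ≤ Real.log N ^ A ∧
          (N : ℝ) / Real.log N ^ W ≤ ((c + κ * v + r : ℤ) : ℝ) ∧ c + κ * v + r ≤ B * N ∧ ¬ Holds ε A D M N (c + κ * v + r)).card : ℝ) ≤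
          ((composedOf P N).card : ℝ) / Real.log N ^ U) ∧
      (Real.log N ^ (2 + δ) ≤ y →
        (((smooth y N).filter fun v : ℕ => ∃ r : ℤ, |(r : ℝ)| ≤ Real.log N ^ A ∧
          (N : ℝ) / Real.log N ^ W ≤ ((c + κ * v + r : ℤ) : ℝ) ∧ c + κ * v + r ≤ B * N ∧ ¬ Holds ε A D M N (c + κ * v + r)).card : ℝ) ≤
          ((smooth y N).card : ℝ) / Real.log N ^ U) := by
  obtain ⟨N₀, h0⟩ := Pool.Agent.N469.TL.both δ hδ K U _
    (fun δ hδ => Pool.Agent.N469.LP.sm_multi (ε / 8) (by positivity) κ hκ K (B + 1) (A + 1) D (W + 1) δ hδ M U)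
  obtain ⟨N₁, h1⟩ := Pool.Agent.N469.LP.schin_of ε hε hε1 A B D M W
  obtain ⟨N₂, h2⟩ := Pool.Agent.H373R2.T7.ev_L' (M + 2)
  refine ⟨N₀ + N₁ + N₂, fun N hN y hy hy' c hc => ?_⟩
  refine h0 N (by omega) y hy hy' (fun v : ℕ => ∃ r : ℤ, |(r : ℝ)| ≤ Real.log N ^ A ∧
          (N : ℝ) / Real.log N ^ W ≤ ((c + κ * v + r : ℤ) : ℝ) ∧ c + κ * v + r ≤ B * N ∧ ¬ Holds ε A D M N (c + κ * v + r))
          (fun v => inferInstance) ⟨c, hc.trans ?_, ?_⟩
  · apply mul_le_mul_of_nonneg_right _ (by positivity)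
    push_cast
    linarith
  rintro v ⟨r, hr, ht1, ht2, hnot⟩
  have hL := h2 N (by omega)
  obtain ⟨t, ht⟩ : ∃ t, t = c + κ * (v : ℤ) + r := ⟨_, rfl⟩
  rw [← ht] at ht1 ht2 hnot
  by_contra hcon
  push Not at hcon
  apply hnot
  intro a m b b' ha haL hm hmM hb hb' hadm
  obtain ⟨c1, c2, c3⟩ := local_cond t b b' a m hadm
  obtain ⟨d1, d2, d3, d4⟩ := h1 N (by omega) t b b' a m ht1 ht2 ha haL hb hb' hm hmM c1 c2 c3
  apply d4
  have e : c + κ * (v : ℤ) + (r + m * b - b') = t + m * b - b' := by rw [ht]; ring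
  have h3 := hcon m hm hmM (r + m * b - b') (by
    push_cast
    have q1 := abs_le.1 hr
    have q2 := abs_le.1 hb
    have q3 := abs_le.1 hb'
    have q4 : (m : ℝ) ≤ M := by exact_mod_cast hmM
    have q5 : (0 : ℝ) ≤ m := Nat.cast_nonneg _
    have q6 : (0 : ℝ) ≤ Real.log N ^ A := by
      have : (0 : ℝ) ≤ M := Nat.cast_nonneg _
      exact pow_nonneg (by linarith) _
    have q7 : |(m : ℝ) * b| ≤ M * Real.log N ^ A := by
      rw [abs_mul, abs_of_nonneg q5]
      exact mul_le_mul q4 hb (abs_nonneg _) (Nat.cast_nonneg _)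
    have q8 := abs_le.1 q7
    have q9 : (M + 2) * Real.log N ^ A ≤ Real.log N * Real.log N ^ A := mul_le_mul_of_nonneg_right hL q6
    rw [pow_succ, abs_le]
    constructor <;> linarith [q1.1, q1.2, q3.1, q3.2, q8.1, q8.2])
  rw [e] at h3
  exact h3 d1 d2 d3

end Pool.Agent.Results.MP_0bf1d2_nt.SmoothNumbers
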